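import Pool.Agent.R341.SG.Stm

set_option autoImplicit false

/-! SG-MINK: Minkowski's inequality with exponent `1 / N`. -/

namespace Pool.Agent.R700.SG

open Finset

theorem mink2 (N : ℕ) (hN : 1 ≤ N) (x y z u v w : ℝ) (hx : 0 ≤ x) (hy : 0 ≤ y) (hz : 0 ≤ z)
    (hu : 0 ≤ u) (hv : 0 ≤ v) (hw : 0 ≤ w) (h1 : x ^ N + y ^ N ≤ z ^ N)
    (h2 : u ^ N + v ^ N ≤ w ^ N) : (x + u) ^ N + (y + v) ^ N ≤ (z + w) ^ N := by
  have hN0 : N ≠ 0 := by omega
  have hp : (1 : ℝ) ≤ (N : ℝ) := by exact_mod_cast hN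
  have key := Real.Lp_add_le_of_nonneg (s := (Finset.univ : Finset (Fin 2))) (f := ![x, y])
    (g := ![u, v]) hp (by intro i _; fin_cases i <;> simp [hx, hy])
    (by intro i _; fin_cases i <;> simp [hu, hv])
  simp only [Fin.sum_univ_two, Matrix.cons_val_zero, Matrix.cons_val_one,
    Real.rpow_natCast, one_div] at key
  have e1 : (x ^ N + y ^ N) ^ ((N : ℝ)⁻¹) ≤ z := by
    calc (x ^ N + y ^ N) ^ ((N : ℝ)⁻¹) ≤ (z ^ N) ^ ((N : ℝ)⁻¹) :=
          Real.rpow_le_rpow (by positivity) h1 (by positivity)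
      _ = z := Real.pow_rpow_inv_natCast hz hN0
  have e2 : (u ^ N + v ^ N) ^ ((N : ℝ)⁻¹) ≤ w := by
    calc (u ^ N + v ^ N) ^ ((N : ℝ)⁻¹) ≤ (w ^ N) ^ ((N : ℝ)⁻¹) :=
          Real.rpow_le_rpow (by positivity) h2 (by positivity)
      _ = w := Real.pow_rpow_inv_natCast hw hN0
  have hS : 0 ≤ (x + u) ^ N + (y + v) ^ N := by positivity
  calc (x + u) ^ N + (y + v) ^ N
      = (((x + u) ^ N + (y + v) ^ N) ^ ((N : ℝ)⁻¹)) ^ N :=
        (Real.rpow_inv_natCast_pow hS hN0).symm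
    _ ≤ (z + w) ^ N := pow_le_pow_left₀ (by positivity) (by linarith) N

theorem minkSum {ι : Type} (N : ℕ) (hN : 1 ≤ N) (μ a b c : ι → ℝ) (hμ : ∀ i, 0 ≤ μ i)
    (ha : ∀ i, 0 ≤ a i) (hb : ∀ i, 0 ≤ b i) (hc : ∀ i, 0 ≤ c i)
    (h : ∀ i, a i ^ N + b i ^ N = c i ^ N) (s : Finset ι) :
    (∑ i ∈ s, μ i * a i) ^ N + (∑ i ∈ s, μ i * b i) ^ N ≤ (∑ i ∈ s, μ i * c i) ^ N := by
  classical
  induction s using Finset.induction_on with
  | empty =>
    have hN0 : N ≠ 0 := by omega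
    simp [hN0]
  | insert i s hi ih =>
    rw [Finset.sum_insert hi, Finset.sum_insert hi, Finset.sum_insert hi, add_comm (μ i * a i),
      add_comm (μ i * b i), add_comm (μ i * c i)]
    apply mink2 N hN _ _ _ _ _ _ _ _ _ _ _ _ ih
    · rw [mul_pow, mul_pow, mul_pow, ← h i]
      exact le_of_eq (by ring)
    · exact Finset.sum_nonneg fun j _ => mul_nonneg (hμ j) (ha j)
    · exact Finset.sum_nonneg fun j _ => mul_nonneg (hμ j) (hb j)
    · exact Finset.sum_nonneg fun j _ => mul_nonneg (hμ j) (hc j)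
    · exact mul_nonneg (hμ i) (ha i)
    · exact mul_nonneg (hμ i) (hb i)
    · exact mul_nonneg (hμ i) (hc i)

theorem x : Pool.Agent.R341.SG.SMINK := by
  intro ι _ μ F0 F1 N hN hμ h0 h1
  have hN0 : N ≠ 0 := by omega
  have key := minkSum N hN μ (fun i => F0 i ^ (1 / (N : ℝ))) (fun i => F1 i ^ (1 / (N : ℝ)))
    (fun i => (F0 i + F1 i) ^ (1 / (N : ℝ))) hμ
    (fun i => Real.rpow_nonneg (h0 i).le _) (fun i => Real.rpow_nonneg (h1 i).le _)
    (fun i => Real.rpow_nonneg (add_pos (h0 i) (h1 i)).le _)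
    (fun i => by
      simp only [one_div]
      rw [Real.rpow_inv_natCast_pow (h0 i).le hN0, Real.rpow_inv_natCast_pow (h1 i).le hN0,
        Real.rpow_inv_natCast_pow (add_pos (h0 i) (h1 i)).le hN0]) Finset.univ
  have hdiv : ∑ i, μ i * ((F0 i + F1 i) / 2) ^ (1 / (N : ℝ)) =
      (∑ i, μ i * (F0 i + F1 i) ^ (1 / (N : ℝ))) * (1 / 2 : ℝ) ^ (1 / (N : ℝ)) := by
    rw [Finset.sum_mul]
    refine Finset.sum_congr rfl fun i _ => ?_
    rw [div_eq_mul_one_div (F0 i + F1 i) 2, Real.mul_rpow (add_pos (h0 i) (h1 i)).le (by norm_num)]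
    ring
  have hhalf : ((1 / 2 : ℝ) ^ (1 / (N : ℝ))) ^ N = 1 / 2 := by
    simp only [one_div]
    exact Real.rpow_inv_natCast_pow (by norm_num) hN0
  rw [hdiv, mul_pow, hhalf]
  linarith

end Pool.Agent.R700.SG
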